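import Pool.Agent.Lib.IncompactD.Local

/-!
# The whole graph is not countably chromatic
-/

open Cardinal Set

namespace Pool.Agent.Lib.IncompactD

open Pool.Agent.Lib.IncompactB

/-- Closure points of a function on lists, of the cofinality of `I`. -/
theorem closure_list {κ : Cardinal.{0}} {X I A : Type} [LinearOrder X] [LinearOrder I]
    [WellFoundedLT I] [WellFoundedLT X] [Nonempty I] [NoMaxOrder I] [Countable A]
    (hX : Reg κ X) (hI : #I ≤ κ) (F : List X → A → X) :
    ∃ (h : I → X) (δ : X), StrictMono h ∧ (∀ j, h j < δ) ∧ (∀ ξ < δ, ∃ j, ξ < h j) ∧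
      ∀ t a, (∀ x ∈ t, x < δ) → F t a < δ := by
  classical
  obtain ⟨u, hu⟩ := exists_injective_nat A
  by_cases hA : Nonempty A
  · let dec : ℕ → A := Function.invFun u
    have hdec : ∀ a, dec (u a) = a := Function.leftInverse_invFun hu
    obtain ⟨h, δ, h1, h2, h3, h4⟩ := hX.closure_pt (I := I) hI
      (fun T n ξ => F (T.map (fun s => s.toList.headD ξ)) (dec n))
    refine ⟨h, δ, h1, h2, h3, fun t a ht => ?_⟩
    have h5 := h4 (t.map (fun x => {x})) (u a) (h (Classical.arbitrary I)) (by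
      intro s hs x hx
      obtain ⟨y, hy, rfl⟩ := List.mem_map.1 hs
      rw [Finset.mem_singleton.1 hx]
      exact ht y hy) (h2 _)
    have h6 : (t.map (fun x => ({x} : Finset X))).map
        (fun s => s.toList.headD (h (Classical.arbitrary I))) = t := by
      rw [List.map_map]
      conv_rhs => rw [← List.map_id t]
      rw [List.map_inj_left]
      intro x hx
      simp
    rw [h6, hdec] at h5
    exact h5
  · obtain ⟨h, δ, h1, h2, h3, h4⟩ := hX.closure_pt (I := I) hI (fun T n ξ => ξ)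
    exact ⟨h, δ, h1, h2, h3, fun t a => absurd ⟨a⟩ hA⟩

variable {W Ω : Type} [LinearOrder W] [LinearOrder Ω] [WellFoundedLT W] [WellFoundedLT Ω]

/-- The vertex `w` has the colour `n`, its sequence and its real have the given initial segments, and
its set contains `β`. -/
def Wit (D : Data W Ω) (f : Vx W Ω → ℕ) (t : List W) (a : List Bool × ℕ) (β : W) (w : Vx W Ω) :
    Prop :=
  Cof Ω w.α ∧ f w = a.2 ∧ res (D.seq w) t.length = t ∧ trunc (D.z w.j) a.1.length = a.1 ∧
    ∃ k, D.seq w k = β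

theorem trunc_length (x : ℕ → Bool) (n : ℕ) : (trunc x n).length = n := by
  simp [trunc]

omit [WellFoundedLT W] [WellFoundedLT Ω] in
theorem wit_iff (D : Data W Ω) (f : Vx W Ω → ℕ) (y : ℕ → W) (z : ℕ → Bool) (d n : ℕ) (β : W)
    (w : Vx W Ω) : Wit D f (res y (d + 1)) (trunc z (d + 1), n) β w ↔
      Cof Ω w.α ∧ f w = n ∧ (∀ k ≤ d, D.seq w k = y k) ∧ (∀ k ≤ d, D.z w.j k = z k) ∧
        ∃ k, D.seq w k = β := by
  unfold Wit
  rw [res_length, res_eq, trunc_length, trunc_eq]
  simp only [Nat.lt_succ_iff]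

/-- **Global part**: every countable colouring has a monochromatic edge. -/
theorem global_edge (D : Data W Ω) (hW : Reg (#Ω) W) (hΩ : Reg ℵ₀ Ω) (hΩ' : ℵ₀ < #Ω)
    (f : Vx W Ω → ℕ) : ∃ v w, Edge D v w ∧ f v = f w := by
  classical
  have hneΩ : Nonempty Ω := by
    rw [← Cardinal.mk_ne_zero_iff]
    exact (lt_of_le_of_lt zero_le hΩ').ne'
  have hmaxΩ : NoMaxOrder Ω := ⟨fun a => by
    obtain ⟨b, hb⟩ := hΩ.bdd Unit (fun _ => a) (Cardinal.mk_le_aleph0)
    exact ⟨b, hb ()⟩⟩
  let wfW : WellFounded (fun i j : W => i < j) := wellFounded_lt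
  let wfΩ : WellFounded (fun i j : Ω => i < j) := wellFounded_lt
  -- the least point that is not hit
  have h1 : ∀ t (a : List Bool × ℕ), ∃ β, ∀ β', (¬ ∃ w, Wit D f t a β' w) →
      β ≤ β' ∧ ¬ ∃ w, Wit D f t a β w := by
    intro t a
    by_cases hne : {β | ¬ ∃ w, Wit D f t a β w}.Nonempty
    · refine ⟨wfW.min _ hne, fun β' hβ' => ⟨?_, wfW.min_mem _ hne⟩⟩
      by_contra hcon
      exact wfW.not_lt_min {β | ¬ ∃ w, Wit D f t a β w} hβ' (not_le.1 hcon)
    · obtain ⟨b, -⟩ := hW.bdd Empty (fun e => e.elim) (by simp)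
      exact ⟨b, fun β' hβ' => absurd ⟨β', hβ'⟩ hne⟩
  choose dm hdm using h1
  obtain ⟨h, α, hh1, hh2, hh3, hcl⟩ := closure_list (I := Ω) hW le_rfl dm
  have hα : Cof Ω α := ⟨h, hh1, hh2, hh3⟩
  -- the smallest second coordinate
  have h2 : ∀ t (a : List Bool × ℕ), ∃ i : Ω, (∃ w, Wit D f t a α w) →
      ∃ w, Wit D f t a α w ∧ w.i = i := by
    intro t a
    by_cases hne : ∃ w, Wit D f t a α w
    · obtain ⟨w, hw⟩ := hne
      exact ⟨w.i, fun _ => ⟨w, hw, rfl⟩⟩
    · exact ⟨Classical.arbitrary Ω, fun h => absurd h hne⟩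
  choose mu hmu using h2
  -- the index of `dm`
  have h3 : ∀ t (a : List Bool × ℕ), ∃ x : Ω, (∀ y ∈ t, y < α) → D.e α x = dm t a := by
    intro t a
    by_cases ht : ∀ y ∈ t, y < α
    · obtain ⟨x, hx⟩ := D.e_mem α hα _ (hcl t a ht)
      exact ⟨x, fun _ => hx⟩
    · exact ⟨Classical.arbitrary Ω, fun h => absurd h ht⟩
  choose ix hix using h3
  obtain ⟨s, i, hs1, hs2, -, hcl2⟩ := closure_list (I := ℕ) hΩ (by simp)
    (fun (t : List Ω) (a : List Bool × ℕ) => max (mu (t.map (D.e α)) a) (ix (t.map (D.e α)) a))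
  have hqi : ∀ k, D.q i k < i := by
    intro k
    rcases D.q_lt i k with h | h
    · exact h
    · exact lt_of_le_of_lt (h (s 0)) (hs2 0)
  -- two reals with the same colour
  obtain ⟨j, j', hjj, hfj⟩ : ∃ j j' : Ω, j ≠ j' ∧ f ⟨α, i, j⟩ = f ⟨α, i, j'⟩ := by
    by_contra hcon
    push Not at hcon
    have hinj : Function.Injective (fun j => f ⟨α, i, j⟩) := by
      intro j j' h
      by_contra hne
      exact hcon j j' hne h
    exact absurd ((Cardinal.mk_le_of_injective hinj).trans (by simp)) (not_le.2 hΩ')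
  have hz : D.z j ≠ D.z j' := fun h => hjj (D.z_inj h)
  have hex : ∃ d, D.z j d ≠ D.z j' d := Function.ne_iff.1 hz
  let d := Nat.find hex
  have hd : D.z j d ≠ D.z j' d := Nat.find_spec hex
  have hd' : ∀ m < d, D.z j m = D.z j' m := by
    intro m hm
    by_contra hcon
    exact Nat.find_min hex hm hcon
  let v : Vx W Ω := ⟨α, i, j⟩
  let v' : Vx W Ω := ⟨α, i, j'⟩
  let T : List Ω := res (D.q i) (d + 1)
  let t : List W := res (D.seq v) (d + 1)
  let a : List Bool × ℕ := (trunc (D.z j') (d + 1), f v)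
  have hT : T.map (D.e α) = t := by
    show ((List.range (d + 1)).map (D.q i)).map (D.e α) = (List.range (d + 1)).map (D.seq v)
    rw [List.map_map]
    rfl
  have hclT := hcl2 T a (by
    intro x hx
    obtain ⟨m, -, rfl⟩ := mem_res.1 hx
    exact hqi m)
  rw [hT, max_lt_iff] at hclT
  by_cases halive : ∃ w, Wit D f t a α w
  · -- the point `α` is hit by a vertex with a smaller second coordinate
    obtain ⟨w, hw, hwi⟩ := hmu t a halive
    rw [wit_iff] at hw
    obtain ⟨c1, c2, c3, c4, c5⟩ := hw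
    refine ⟨v, w, ⟨hα, c1, ?_, c5, d, ?_, ?_, ?_⟩, c2.symm⟩
    · rw [hwi]
      exact hclT.1
    · intro m hm
      rw [c4 m hm.le]
      exact hd' m hm
    · rw [c4 d le_rfl]
      exact hd
    · intro k hk
      exact (c3 k hk).symm
  · -- the least point which is not hit is in the set of `v`
    exfalso
    have h5 := (hdm t a α halive).2
    refine h5 ⟨v', ?_⟩
    rw [wit_iff]
    refine ⟨hα, hfj.symm, fun _ _ => rfl, fun _ _ => rfl, ?_⟩
    obtain ⟨k, hk⟩ := D.q_mem i _ hclT.2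
    refine ⟨k, ?_⟩
    show D.e α (D.q i k) = dm t a
    rw [hk]
    refine hix t a (fun y hy => ?_)
    obtain ⟨m, -, rfl⟩ := mem_res.1 hy
    exact D.e_lt α hα _

end Pool.Agent.Lib.IncompactD
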