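import Pool.Agent.Lib.IncompactB.Compact

/-!
# A graph of size `ℵ₂` whose small subgraphs are countably chromatic: the definition

`W` is a well-order like `ω₂` and `Ω` a well-order like `ω₁`.  For every point `α` of cofinality `ω₁`
of `W` fix an enumeration `e α : Ω → W` of the points below `α`; for every `i ∈ Ω` fix an enumeration
`q i : ℕ → Ω` of the points below `i`; and fix distinct reals `z j`, `j ∈ Ω`.

The vertices are the triples `v = (α, i, j)`; let `v.seq d k = e α (q i k)`, an enumeration of the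
countable set `{e α x | x < i}`, and let `z j` be the real of `v`.

The vertices `v = (α, i, j)` and `w = (α', i', j')` (with `α`, `α'` of cofinality `ω₁`) are joined when
`i' < i`, `α` belongs to the countable set of `w`, and the sequences of `v` and `w` agree up to (and
including) the first difference of the reals of `v` and `w`.
-/

open Cardinal Set

namespace Pool.Agent.Lib.IncompactD

open Pool.Agent.Lib.IncompactB

/-- The triples `(α, i, j)`. -/
structure Vx (W Ω : Type) where
  α : W
  i : Ω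
  j : Ω

/-- The choices: enumerations and reals. -/
structure Data (W Ω : Type) [LinearOrder W] [LinearOrder Ω] where
  e : W → Ω → W
  q : Ω → ℕ → Ω
  z : Ω → ℕ → Bool
  q_mem : ∀ i j, j < i → ∃ k, q i k = j
  q_lt : ∀ i k, q i k < i ∨ IsBot (q i k)
  z_inj : Function.Injective z
  e_lt : ∀ α, (∃ h : Ω → W, Ladder α h) → ∀ j, e α j < α
  e_mem : ∀ α, (∃ h : Ω → W, Ladder α h) → ∀ ξ < α, ∃ j, e α j = ξ

variable {W Ω : Type} [LinearOrder W] [LinearOrder Ω]

/-- The sequence of a vertex. -/
def Data.seq (D : Data W Ω) (v : Vx W Ω) (k : ℕ) : W := D.e v.α (D.q v.i k)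

/-- The point has the cofinality of `Ω`. -/
def Cof (Ω : Type) [LinearOrder Ω] (α : W) : Prop := ∃ h : Ω → W, Ladder α h

/-- The directed edges. -/
def Edge (D : Data W Ω) (v w : Vx W Ω) : Prop :=
  Cof Ω v.α ∧ Cof Ω w.α ∧ w.i < v.i ∧ (∃ k, D.seq w k = v.α) ∧
    ∃ d, (∀ m < d, D.z v.j m = D.z w.j m) ∧ D.z v.j d ≠ D.z w.j d ∧
      ∀ k ≤ d, D.seq v k = D.seq w k

theorem Edge.lt {D : Data W Ω} {v w : Vx W Ω} (h : Edge D v w) : v.α < w.α := by
  obtain ⟨-, h2, -, ⟨k, hk⟩, -⟩ := h
  rw [← hk]
  exact D.e_lt _ h2 _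

/-- Along an edge, the sequences agree as far as the reals agree. -/
theorem Edge.agree {D : Data W Ω} {v w : Vx W Ω} (h : Edge D v w) {k : ℕ}
    (hz : trunc (D.z v.j) (k + 1) = trunc (D.z w.j) (k + 1)) : D.seq v k = D.seq w k := by
  obtain ⟨-, -, -, -, d, -, h2, h3⟩ := h
  refine h3 k ?_
  by_contra hcon
  exact h2 (trunc_eq.1 hz d (by omega))

end Pool.Agent.Lib.IncompactD
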