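import Pool.Agent.Lib.IncompactD.Graph

/-!
# Bounded parts of the graph are countably chromatic
-/

open Cardinal Set

namespace Pool.Agent.Lib.IncompactD

open Pool.Agent.Lib.IncompactB

variable {W Ω : Type} [LinearOrder W] [LinearOrder Ω]

/-- Countably many points below a point of the cofinality of `Ω` are bounded below it. -/
theorem Cof.bdd (hΩ : Reg ℵ₀ Ω) {α : W} (h : Cof Ω α) {ι : Type} (hι : #ι ≤ ℵ₀) (u : ι → W)
    (hu : ∀ k, u k < α) : ∃ b < α, ∀ k, u k < b := by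
  obtain ⟨h, h1, h2, h3⟩ := h
  choose x hx using fun k => h3 (u k) (hu k)
  obtain ⟨b, hb⟩ := hΩ.bdd ι x hι
  exact ⟨h b, h2 b, fun k => (hx k).trans (h1 (hb k))⟩

/-- The sets of the vertices increase with `i`. -/
theorem Data.seq_mono (D : Data W Ω) {v v' : Vx W Ω} (hα : v.α = v'.α) (hi : v.i ≤ v'.i) (k : ℕ) :
    ∃ k', D.seq v' k' = D.seq v k := by
  unfold Data.seq
  rw [← hα]
  rcases D.q_lt v.i k with h | h
  · obtain ⟨k', hk'⟩ := D.q_mem v'.i (D.q v.i k) (lt_of_lt_of_le h hi)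
    exact ⟨k', by rw [hk']⟩
  · rcases (h v'.i).lt_or_eq with h1 | h1
    · obtain ⟨k', hk'⟩ := D.q_mem v'.i (D.q v.i k) h1
      exact ⟨k', by rw [hk']⟩
    · refine ⟨k, ?_⟩
      rcases D.q_lt v'.i k with h2 | h2
      · rw [← h1] at h2
        exact absurd h2 (not_lt.2 (h _))
      · rw [le_antisymm (h2 _) (h _)]

variable [WellFoundedLT Ω]

/-- The case where all smaller bounds are done. -/
theorem local_step (D : Data W Ω) (hΩ : Reg ℵ₀ Ω) (δ₀ : W) (g : Ω → W) (hg : ∀ j, g j < δ₀)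
    (hg' : ∀ ξ < δ₀, ∃ j, g j = ξ)
    (ih : ∀ γ < δ₀, ∃ c : Vx W Ω → ℕ, ∀ v w, v.α ≤ γ → w.α ≤ γ → Edge D v w → c v ≠ c w) :
    ∃ c : Vx W Ω → ℕ, ∀ v w, v.α < δ₀ → w.α < δ₀ → Edge D v w → c v ≠ c w := by
  classical
  let wf : WellFounded (fun i j : Ω => i < j) := wellFounded_lt
  -- the block of `δ`
  have hl0 : ∀ δ : W, ∃ l : Ω, δ < δ₀ → (δ ≤ g l ∧ ∀ j < l, g j < δ) := by
    intro δ
    by_cases hδ : δ < δ₀
    · have hne : {l | δ ≤ g l}.Nonempty := by
        obtain ⟨j, hj⟩ := hg' δ hδ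
        exact ⟨j, hj.ge⟩
      refine ⟨wf.min _ hne, fun _ => ⟨wf.min_mem _ hne, fun j hj => ?_⟩⟩
      by_contra hcon
      exact wf.not_lt_min {l | δ ≤ g l} (not_lt.1 hcon) hj
    · obtain ⟨b, -⟩ := hΩ.bdd Empty (fun e => e.elim) (by simp)
      exact ⟨b, fun h => absurd h hδ⟩
  choose l hl using hl0
  have hl_mono : ∀ δ δ', δ ≤ δ' → δ' < δ₀ → l δ ≤ l δ' := by
    intro δ δ' h1 h2
    by_contra hcon
    have := (hl δ (lt_of_le_of_lt h1 h2)).2 _ (not_le.1 hcon)
    exact absurd (h1.trans (hl δ' h2).1) (not_le.2 this)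
  -- the vertices whose set meets their own block
  let High : Vx W Ω → Prop := fun v => ∃ k, l (D.seq v k) = l v.α
  have hHmono : ∀ v v' : Vx W Ω, v.α = v'.α → v.i ≤ v'.i → High v → High v' := by
    rintro v v' hα hi ⟨k, hk⟩
    obtain ⟨k', hk'⟩ := D.seq_mono hα hi k
    exact ⟨k', by rw [hk', hk, hα]⟩
  -- the level `lam δ` from which on the vertices are high
  have hlam0 : ∀ δ : W, ∃ p : Ω, δ < δ₀ → Cof Ω δ → High ⟨δ, p, p⟩ := by
    intro δ
    by_cases hδ : δ < δ₀ ∧ Cof Ω δ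
    · obtain ⟨b, hb, hb'⟩ := hδ.2.bdd hΩ (ι := Set.Iio (l δ))
        ((Cardinal.mk_le_mk_of_subset Set.Iio_subset_Iic_self).trans (hΩ.iic _))
        (fun j => g j.1) (fun j => (hl δ hδ.1).2 _ j.2)
      obtain ⟨j, hj⟩ := D.e_mem δ hδ.2 b hb
      obtain ⟨p, hp⟩ := hΩ.bdd Unit (fun _ => j) (Cardinal.mk_le_aleph0)
      obtain ⟨k, hk⟩ := D.q_mem p j (hp ())
      refine ⟨p, fun _ _ => ⟨k, ?_⟩⟩
      show l (D.e δ (D.q p k)) = l δ
      rw [hk, hj]
      refine le_antisymm (hl_mono _ _ hb.le hδ.1) ?_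
      by_contra hcon
      exact absurd (hl b (hb.trans hδ.1)).1 (not_le.2 (hb' ⟨_, not_le.1 hcon⟩))
    · exact ⟨l δ, fun h1 h2 => absurd ⟨h1, h2⟩ hδ⟩
  choose lam hlam using hlam0
  have hlow : ∀ v : Vx W Ω, v.α < δ₀ → Cof Ω v.α → ¬ High v → v.i < lam v.α := by
    intro v h1 h2 h3
    by_contra hcon
    exact h3 (hHmono ⟨v.α, lam v.α, lam v.α⟩ v rfl (not_lt.1 hcon) (hlam v.α h1 h2))
  -- enumerations of the initial segments of `Ω`
  have he : ∀ p : Ω, ∃ e : Ω → ℕ, ∀ i ≤ p, ∀ i' ≤ p, e i = e i' → i = i' := by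
    intro p
    have : (Set.Iic p).Countable := Cardinal.le_aleph0_iff_set_countable.1 (hΩ.iic p)
    obtain ⟨e, he⟩ := Set.countable_iff_exists_injOn.1 this
    exact ⟨e, fun i hi i' hi' heq => he hi hi' heq⟩
  choose e he using he
  choose! c hc using ih
  let kH : Vx W Ω → ℕ := fun v => sInf {k | l (D.seq v k) = l v.α}
  let M : Vx W Ω → Set ℕ := fun v => {k | Cof Ω (D.seq v k) ∧ v.i < lam (D.seq v k)}
  let kL : Vx W Ω → ℕ := fun v => sInf (M v)
  let col : Vx W Ω → Bool × ℕ × ℕ × ℕ × List Bool := fun v =>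
    if High v then (true, c (g (l v.α)) v, kH v, 0, trunc (D.z v.j) (kH v + 1))
    else (false, if (M v).Nonempty then 1 else 0, kL v, e (lam (D.seq v (kL v))) v.i,
      trunc (D.z v.j) (kL v + 1))
  have key : ∀ v w, v.α < δ₀ → w.α < δ₀ → Edge D v w → col v ≠ col w := by
    intro v w hv0 hw0 hE heq
    have hvw : v.α < w.α := hE.lt
    obtain ⟨hSv, hSw, hlt, ⟨k', hk'⟩, -⟩ := id hE
    by_cases hwH : High w
    · have e2 : col w = (true, c (g (l w.α)) w, kH w, 0, trunc (D.z w.j) (kH w + 1)) := if_pos hwH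
      by_cases hvH : High v
      · have e1 : col v = (true, c (g (l v.α)) v, kH v, 0, trunc (D.z v.j) (kH v + 1)) :=
          if_pos hvH
        rw [e1, e2] at heq
        simp only [Prod.mk.injEq, true_and] at heq
        obtain ⟨h1, h2, h3⟩ := heq
        rw [h2] at h3
        have h4 := hE.agree h3
        have h5 : l (D.seq v (kH v)) = l v.α := Nat.sInf_mem hvH
        have h6 : l (D.seq w (kH w)) = l w.α := Nat.sInf_mem hwH
        rw [h2, h4, h6] at h5
        refine hc (g (l v.α)) (hg _) v w (hl _ hv0).1 ?_ hE ?_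
        · rw [← h5]
          exact (hl _ hw0).1
        · rw [h1, h5]
      · have e1 : col v = (false, if (M v).Nonempty then 1 else 0, kL v,
          e (lam (D.seq v (kL v))) v.i, trunc (D.z v.j) (kL v + 1)) := if_neg hvH
        rw [e1, e2] at heq
        simp at heq
    · have e2 : col w = (false, if (M w).Nonempty then 1 else 0, kL w,
          e (lam (D.seq w (kL w))) w.i, trunc (D.z w.j) (kL w + 1)) := if_neg hwH
      by_cases hvH : High v
      · have e1 : col v = (true, c (g (l v.α)) v, kH v, 0, trunc (D.z v.j) (kH v + 1)) :=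
          if_pos hvH
        rw [e1, e2] at heq
        simp at heq
      · have e1 : col v = (false, if (M v).Nonempty then 1 else 0, kL v,
          e (lam (D.seq v (kL v))) v.i, trunc (D.z v.j) (kL v + 1)) := if_neg hvH
        rw [e1, e2] at heq
        simp only [Prod.mk.injEq, true_and] at heq
        obtain ⟨h1, h2, h3, h4⟩ := heq
        have hwM : (M w).Nonempty := by
          refine ⟨k', ?_⟩
          show Cof Ω (D.seq w k') ∧ w.i < lam (D.seq w k')
          rw [hk']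
          exact ⟨hSv, hlt.trans (hlow v hv0 hSv hvH)⟩
        have hvM : (M v).Nonempty := by
          by_contra hcon
          rw [if_pos hwM, if_neg hcon] at h1
          exact absurd h1 (by norm_num)
        have h5 : v.i < lam (D.seq v (kL v)) := (Nat.sInf_mem hvM).2
        have h6 : w.i < lam (D.seq w (kL w)) := (Nat.sInf_mem hwM).2
        rw [h2] at h4
        have h7 := hE.agree h4
        rw [h2, h7] at h5 h3
        exact hlt.ne' (he _ _ h5.le _ h6.le h3)
  obtain ⟨f, hf⟩ := exists_injective_nat (Bool × ℕ × ℕ × ℕ × List Bool)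
  exact ⟨fun v => f (col v), fun v w hv0 hw0 hE heq => key v w hv0 hw0 hE (hf heq)⟩

/-- **Local part**: the vertices with `α ≤ γ` span a countably chromatic graph. -/
theorem local_coloring [WellFoundedLT W] (D : Data W Ω) (hW : Reg (#Ω) W) (hΩ : Reg ℵ₀ Ω) (γ : W) :
    ∃ c : Vx W Ω → ℕ, ∀ v w, v.α ≤ γ → w.α ≤ γ → Edge D v w → c v ≠ c w := by
  classical
  induction γ using WellFoundedLT.induction with
  | ind γ ih =>
    by_cases hγ : ∃ ξ, ξ < γ
    · obtain ⟨g, hg, hg'⟩ := exists_enum hW γ hγ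
      obtain ⟨c, hc⟩ := local_step D hΩ γ g hg hg' ih
      refine ⟨fun v => if v.α = γ then 0 else c v + 1, fun v w hvγ hwγ hE => ?_⟩
      have h1 := hE.lt
      have h2 : v.α < γ := lt_of_lt_of_le h1 hwγ
      have e1 : (if v.α = γ then 0 else c v + 1) = c v + 1 := if_neg h2.ne
      show (if v.α = γ then 0 else c v + 1) ≠ (if w.α = γ then 0 else c w + 1)
      rw [e1]
      by_cases hw' : w.α = γ
      · rw [if_pos hw']
        omega
      · rw [if_neg hw']
        intro heq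
        exact hc v w h2 (lt_of_le_of_ne hwγ hw') hE (by omega)
    · refine ⟨fun _ => 0, fun v w hvγ hwγ hE => ?_⟩
      exact absurd ⟨v.α, lt_of_lt_of_le hE.lt hwγ⟩ hγ

end Pool.Agent.Lib.IncompactD
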