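import Pool.Agent.Lib.H45R.Unbounded
import Pool.Agent.Lib.IncompactD.Global

/-!
# Incompactness of the countable chromatic number at `ℵ₂`, in ZFC
-/

open Cardinal Set

namespace Pool.Agent.Lib.IncompactD

open Pool.Agent.Lib.IncompactB Pool.Agent.Results.MP_d06690_lc.Reduction
  Pool.Agent.Results.MP_d06690_lc.Unbounded

theorem exists_data : Nonempty (Data w2.ToType w1.ToType) := by
  classical
  obtain ⟨z, hz⟩ := exists_reals
  have hΩ : Reg ℵ₀ w1.ToType := reg_w1
  have hbot : ∃ b : w1.ToType, IsBot b := by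
    have hne : (Set.univ : Set w1.ToType).Nonempty := by
      obtain ⟨b, -⟩ := hΩ.bdd Empty (fun e => e.elim) (by simp)
      exact ⟨b, trivial⟩
    refine ⟨wellFounded_lt.min _ hne, fun x => ?_⟩
    by_contra hcon
    exact wellFounded_lt.not_lt_min (Set.univ : Set w1.ToType) (Set.mem_univ x) (not_le.1 hcon)
  obtain ⟨b, hb⟩ := hbot
  have hq : ∀ i : w1.ToType, ∃ q : ℕ → w1.ToType, (∀ j < i, ∃ k, q k = j) ∧
      ∀ k, q k < i ∨ IsBot (q k) := by
    intro i
    by_cases hi : (Set.Iio i).Nonempty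
    · have hc : (Set.Iio i).Countable :=
        (Cardinal.le_aleph0_iff_set_countable.1 (hΩ.iic i)).mono Set.Iio_subset_Iic_self
      obtain ⟨q, hq⟩ := hc.exists_eq_range hi
      refine ⟨q, fun j hj => ?_, fun k => Or.inl ?_⟩
      · have : j ∈ Set.range q := hq ▸ hj
        exact this
      · have : q k ∈ Set.Iio i := hq ▸ Set.mem_range_self k
        exact this
    · exact ⟨fun _ => b, fun j hj => absurd ⟨j, hj⟩ hi, fun _ => Or.inr hb⟩
  choose q hq1 hq2 using hq
  have he : ∀ α : w2.ToType, ∃ e : w1.ToType → w2.ToType,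
      (∃ h : w1.ToType → w2.ToType, Ladder α h) → (∀ j, e j < α) ∧ ∀ ξ < α, ∃ j, e j = ξ := by
    intro α
    by_cases hα : ∃ ξ, ξ < α
    · obtain ⟨g, hg⟩ := exists_enum (Ω := w1.ToType) reg_w2 α hα
      exact ⟨g, fun _ => hg⟩
    · exact ⟨fun _ => α, fun ⟨h, h1⟩ => absurd ⟨_, h1.2.1 b⟩ hα⟩
  choose e he using he
  exact ⟨⟨e, q, z, hq1, hq2, hz, fun α hα => (he α hα).1, fun α hα => (he α hα).2⟩⟩

/-- The graph. -/
def graph (D : Data w2.ToType w1.ToType) : SimpleGraph (Vx w2.ToType w1.ToType) where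
  Adj v w := Edge D v w ∨ Edge D w v
  symm := ⟨fun _ _ h => h.symm⟩
  loopless := ⟨fun _ h => by
    rcases h with h | h
    · exact lt_irrefl _ h.lt
    · exact lt_irrefl _ h.lt⟩

theorem mk_vx : #(Vx w2.ToType w1.ToType) = Cardinal.aleph 2 := by
  have e : Vx w2.ToType w1.ToType ≃ w2.ToType × w1.ToType × w1.ToType :=
    ⟨fun v => (v.α, v.i, v.j), fun p => ⟨p.1, p.2.1, p.2.2⟩, fun _ => rfl, fun _ => rfl⟩
  rw [Cardinal.mk_congr e, Cardinal.mk_prod, Cardinal.mk_prod]
  simp only [Cardinal.lift_id, Cardinal.mk_toType, Cardinal.card_ord]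
  rw [Cardinal.mul_eq_self (Cardinal.aleph0_le_aleph 1)]
  refine Cardinal.mul_eq_left (Cardinal.aleph0_le_aleph 2) ?_ (Cardinal.aleph_pos 1).ne'
  rw [Cardinal.aleph_le_aleph]
  exact one_le_two

/-- There is a graph with `ℵ₂` vertices and uncountable chromatic number all of whose subgraphs on at
most `ℵ₁` vertices are countably chromatic. -/
theorem incompact : Incompact := by
  obtain ⟨D⟩ := exists_data
  refine ⟨Vx w2.ToType w1.ToType, graph D, mk_vx, ?_, ?_⟩
  · refine ⟨fun c => ?_⟩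
    obtain ⟨v, w, h1, h2⟩ := global_edge D reg_w2 reg_w1 (by
      rw [Cardinal.mk_toType, Cardinal.card_ord]
      exact Cardinal.aleph0_lt_aleph_one) c
    exact c.valid (Or.inl h1) h2
  · intro U hU
    obtain ⟨γ, hγ⟩ := reg_w2.bdd U (fun v => v.1.α) (by
      rw [Cardinal.mk_toType, Cardinal.card_ord]
      exact hU)
    obtain ⟨c, hc⟩ := local_coloring D reg_w2 reg_w1 γ
    refine ⟨SimpleGraph.Coloring.mk (fun v => c v.1) ?_⟩
    intro v w hvw
    have hadj : (graph D).Adj v.1 w.1 := hvw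
    rcases hadj with h | h
    · exact hc _ _ (hγ v).le (hγ w).le h
    · exact (hc _ _ (hγ w).le (hγ v).le h).symm

end Pool.Agent.Lib.IncompactD
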